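import Mathlib

/-!
# The neighbourhood assignment game and total paracompactness

There is a regular Hausdorff space `X` (of cardinality `ℵ_ω`, all of whose subsets of cardinality
less than `ℵ_ω` are closed and discrete) which is not even metacompact, although the second player
has a winning strategy in the game with partial open neighbourhood assignments.
-/

namespace Pool.Agent.Results.MP_74305c_gt.BobWins

open Set Cardinal Topology TopologicalSpace
open scoped Ordinal

/-! ### The game -/

/-- A move of Alice: a set `Y` of points and a set `V x` for every point `x` (only the values at the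
points of `Y` matter). -/
structure Move (X : Type*) where
  /-- the points to which a set is assigned -/
  Y : Set X
  /-- the assigned sets -/
  V : X → Set X

section game

variable {X : Type*}

/-- The points which are not covered before round `n`. -/
def W (A : ℕ → Move X) (D : ℕ → Set X) (n : ℕ) : Set X :=
  {x | ∀ k < n, ∀ y ∈ D k, x ∉ (A k).V y}

/-- The history of the game before round `n`: the moves of both players in the rounds `k < n`. -/
def hist (A : ℕ → Move X) (D : ℕ → Set X) (n : ℕ) : List (Move X × Set X) :=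
  (List.range n).map fun k => (A k, D k)

variable [TopologicalSpace X]

/-- Alice's move in round `n` is legal: she plays a partial open neighbourhood assignment on a
subset of the uncovered part, and its members cover the uncovered part. -/
def AliceLegal (A : ℕ → Move X) (D : ℕ → Set X) (n : ℕ) : Prop :=
  (A n).Y ⊆ W A D n ∧ (∀ x ∈ (A n).Y, IsOpen ((A n).V x) ∧ x ∈ (A n).V x) ∧
    ∀ x ∈ W A D n, ∃ y ∈ (A n).Y, x ∈ (A n).V y

/-- Bob's move in round `n` is legal: a subset of `Y_n` which is closed and discrete in `X`. -/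
def BobLegal (A : ℕ → Move X) (D : ℕ → Set X) (n : ℕ) : Prop :=
  D n ⊆ (A n).Y ∧ IsClosed (D n) ∧ DiscreteTopology (D n)

omit [TopologicalSpace X] in
/-- Bob wins the play: the chosen sets cover `X`. -/
def CoversAll (A : ℕ → Move X) (D : ℕ → Set X) : Prop :=
  ∀ x, ∃ n, ∃ y ∈ D n, x ∈ (A n).V y

/-- `σ` is a winning strategy for Bob: his move in round `n` is `σ` of the history and of Alice's
current move; it is legal as long as Alice plays legally, and Bob wins every play in which Alice
plays legally and he follows `σ`. -/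
def BobWinning (σ : List (Move X × Set X) → Move X → Set X) : Prop :=
  ∀ (A : ℕ → Move X) (D : ℕ → Set X), (∀ n, D n = σ (hist A D n) (A n)) →
    (∀ n, (∀ k ≤ n, AliceLegal A D k) → BobLegal A D n) ∧
    ((∀ n, AliceLegal A D n) → CoversAll A D)

/-- `X` is totally paracompact: every base has a subfamily which is a locally finite cover. -/
def TotallyParacompact (X : Type*) [TopologicalSpace X] : Prop :=
  ∀ B : Set (Set X), IsTopologicalBasis B →
    ∃ G ⊆ B, ⋃₀ G = Set.univ ∧ LocallyFinite (fun g : G => (g : Set X))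

end game

/-! ### The space -/

/-- a set of cardinality `ℵ_n` -/
abbrev M (n : ℕ) : Type := (aleph.{0} (n : Ordinal)).out

theorem mk_M (n : ℕ) : #(M n) = aleph.{0} (n : Ordinal) := mk_out _

/-- the isolated points -/
abbrev S : Type := Σ n : ℕ, ℕ × M n

theorem exists_Z : ∃ Z : Set (ℕ → Bool), #Z = aleph.{0} 1 := by
  have h : aleph.{0} 1 ≤ #(ℕ → Bool) := by
    have : #(ℕ → Bool) = continuum.{0} := by simp
    rw [this]
    exact aleph_one_le_continuum
  exact le_mk_iff_exists_set.1 h

/-- a set of `ℵ₁` sequences -/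
def Z : Set (ℕ → Bool) := exists_Z.choose

theorem mk_Z : #Z = aleph.{0} 1 := exists_Z.choose_spec

/-- eventually different functions -/
def f (z : ℕ → Bool) (n : ℕ) : ℕ := Encodable.encode ((List.range n).map z)

theorem f_ne {z z' : ℕ → Bool} (h : z ≠ z') : ∃ N, ∀ n, N < n → f z n ≠ f z' n := by
  obtain ⟨N, hN⟩ := Function.ne_iff.1 h
  refine ⟨N, fun n hn e => hN ?_⟩
  have e2 := Encodable.encode_injective e
  have e3 := (List.map_inj_left (l := List.range n) (f := z) (g := z')).1 e2
  exact e3 N (List.mem_range.2 hn)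

/-- the space -/
def X : Type := S ⊕ Z

/-- the point of `X` given by an element of `S` -/
def s (a : S) : X := Sum.inl a
/-- the point of `X` given by an element of `Z` -/
def t (z : Z) : X := Sum.inr z

/-- the set of isolated points converging to `z` -/
def A (z : Z) : Set S := {a | a.2.1 = f z a.1}

/-- small sets -/
def Small {α : Type} (C : Set α) : Prop := #C < aleph.{0} (ω)

theorem Small.mono {α : Type} {C D : Set α} (h : C ⊆ D) (hD : Small D) : Small C :=
  (mk_le_mk_of_subset h).trans_lt hD

theorem Small.union {α : Type} {C D : Set α} (hC : Small C) (hD : Small D) : Small (C ∪ D) :=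
  (mk_union_le C D).trans_lt (add_lt_of_lt (aleph0_le_aleph _) hC hD)

theorem Small.image {α β : Type} {C : Set α} (g : α → β) (hC : Small C) : Small (g '' C) :=
  mk_image_le.trans_lt hC

theorem Small.preimage {α β : Type} {C : Set β} {g : α → β} (hg : Function.Injective g)
    (hC : Small C) : Small (g ⁻¹' C) :=
  (mk_preimage_of_injective g C hg).trans_lt hC

theorem small_empty {α : Type} : Small (∅ : Set α) := by
  unfold Small
  rw [mk_eq_zero]
  exact aleph_pos _

theorem nat_lt_omega (n : ℕ) : aleph.{0} (n : Ordinal) < aleph.{0} ω :=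
  aleph_lt_aleph.2 (Ordinal.natCast_lt_omega0 n)

theorem small_level (n : ℕ) : Small {a : S | a.1 = n} := by
  have : {a : S | a.1 = n} ⊆ (fun p : ℕ × M n => (⟨n, p⟩ : S)) '' univ := by
    rintro ⟨k, p⟩ hk
    obtain rfl : k = n := hk
    exact ⟨p, trivial, rfl⟩
  refine Small.mono this (Small.image _ ?_)
  unfold Small
  rw [mk_univ, mk_prod, Cardinal.lift_id, Cardinal.lift_id, mk_M, mk_nat, aleph0_mul_aleph]
  exact nat_lt_omega n

theorem small_levels (n : ℕ) : Small {a : S | a.1 < n} := by
  induction n with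
  | zero => simpa using small_empty
  | succ n ih =>
    refine Small.mono ?_ (ih.union (small_level n))
    intro a ha
    rcases Nat.lt_succ_iff_lt_or_eq.1 ha with h | h
    · exact Or.inl h
    · exact Or.inr h

instance : TopologicalSpace X where
  IsOpen U := ∀ z : Z, t z ∈ U → Small {a | a ∈ A z ∧ s a ∉ U}
  isOpen_univ := by
    intro z _
    refine Small.mono ?_ (small_empty (α := S))
    rintro a ⟨-, h⟩
    exact (h trivial).elim
  isOpen_inter := by
    intro U V hU hV z hz
    refine Small.mono ?_ ((hU z hz.1).union (hV z hz.2))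
    rintro a ⟨ha, h⟩
    by_cases h1 : s a ∈ U
    · exact Or.inr ⟨ha, fun h2 => h ⟨h1, h2⟩⟩
    · exact Or.inl ⟨ha, h1⟩
  isOpen_sUnion := by
    intro F hF z hz
    obtain ⟨U, hU, hzU⟩ := hz
    refine Small.mono ?_ (hF U hU z hzU)
    rintro a ⟨ha, h⟩
    exact ⟨ha, fun h1 => h ⟨U, hU, h1⟩⟩

theorem isOpen_def {U : Set X} : IsOpen U ↔ ∀ z : Z, t z ∈ U → Small {a | a ∈ A z ∧ s a ∉ U} :=
  Iff.rfl

theorem s_inj : Function.Injective s := Sum.inl_injective
theorem t_inj : Function.Injective t := Sum.inr_injective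

theorem isClosed_small {C : Set X} (hC : Small C) : IsClosed C := by
  rw [← isOpen_compl_iff, isOpen_def]
  intro z _
  refine Small.mono ?_ (Small.preimage s_inj hC)
  rintro a ⟨-, h⟩
  simpa using h

theorem discrete_small {C : Set X} (hC : Small C) : DiscreteTopology C := by
  rw [discreteTopology_iff_forall_isClosed]
  intro E
  have : E = ((↑) : C → X) ⁻¹' (((↑) : C → X) '' E) :=
    (preimage_image_eq _ Subtype.val_injective).symm
  rw [this]
  refine IsClosed.preimage continuous_subtype_val (isClosed_small (Small.mono ?_ hC))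
  rintro _ ⟨x, -, rfl⟩
  exact x.2

theorem inter_small {z z' : Z} (h : z ≠ z') : Small {a | a ∈ A z ∧ a ∈ A z'} := by
  obtain ⟨N, hN⟩ := f_ne (fun e => h (Subtype.ext e))
  refine Small.mono ?_ (small_levels (N + 1))
  rintro a ⟨h1, h2⟩
  by_contra h3
  exact hN a.1 (by simpa using h3) (h1.symm.trans h2)

/-- the basic neighbourhoods of the point `t z` -/
def nb (z : Z) (C : Set S) : Set X := insert (t z) (s '' (A z \ C))

theorem s_mem_nb {z : Z} {C : Set S} {a : S} : s a ∈ nb z C ↔ a ∈ A z ∧ a ∉ C := by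
  constructor
  · rintro (h | ⟨b, hb, h⟩)
    · exact (Sum.inl_ne_inr h).elim
    · rw [← s_inj h]; exact hb
  · intro h
    exact Or.inr ⟨a, h, rfl⟩

theorem t_mem_nb {z z' : Z} {C : Set S} : t z' ∈ nb z C ↔ z' = z := by
  constructor
  · rintro (h | ⟨b, hb, h⟩)
    · exact t_inj h
    · exact (Sum.inl_ne_inr h).elim
  · rintro rfl
    exact Or.inl rfl

theorem isOpen_nb {z : Z} {C : Set S} (hC : Small C) : IsOpen (nb z C) := by
  intro z' hz'
  obtain rfl := t_mem_nb.1 hz'
  refine Small.mono ?_ hC
  rintro a ⟨ha, h⟩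
  by_contra h2
  exact h (s_mem_nb.2 ⟨ha, h2⟩)

theorem isClosed_nb {z : Z} {C : Set S} : IsClosed (nb z C) := by
  rw [← isOpen_compl_iff, isOpen_def]
  intro z' hz'
  have hne : z' ≠ z := fun e => hz' (t_mem_nb.2 e)
  refine Small.mono ?_ (inter_small hne)
  rintro a ⟨ha, h⟩
  rw [mem_compl_iff, not_not, s_mem_nb] at h
  exact ⟨ha, h.1⟩

theorem isOpen_s (a : S) : IsOpen ({s a} : Set X) := by
  intro z hz
  exact (Sum.inr_ne_inl (mem_singleton_iff.1 hz)).elim

instance : T1Space X := ⟨fun x => isClosed_small (by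
  unfold Small
  rw [mk_singleton]
  exact one_lt_aleph0.trans_le (aleph0_le_aleph _))⟩

instance : RegularSpace X := by
  refine RegularSpace.of_exists_mem_nhds_isClosed_subset ?_
  intro x U hU
  obtain ⟨V, hVU, hV, hx⟩ := mem_nhds_iff.1 hU
  rcases x with a | z
  · exact ⟨{s a}, (isOpen_s a).mem_nhds rfl, isClosed_singleton, by
      rintro _ rfl; exact hVU hx⟩
  · refine ⟨nb z {a | a ∈ A z ∧ s a ∉ V}, (isOpen_nb (hV z hx)).mem_nhds (t_mem_nb.2 rfl),
      isClosed_nb, ?_⟩
    rintro (a | z') hy
    · have := s_mem_nb.1 hy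
      by_contra h
      exact this.2 ⟨this.1, fun h2 => h (hVU h2)⟩
    · obtain rfl := t_mem_nb.1 hy
      exact hVU hx

instance : Infinite X := Infinite.of_injective (fun n : ℕ => s ⟨0, (n, Classical.choice
    (mk_ne_zero_iff.1 (by rw [mk_M]; exact (aleph_pos _).ne')))⟩) (by
  intro a b h
  have := s_inj h
  simpa using this)

/-! ### Bob's strategy -/

/-- the part of the space which Bob covers in round `n` -/
def part (n : ℕ) : Set X := s '' {a | a.1 < n} ∪ range t

theorem small_part (n : ℕ) : Small (part n) := by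
  refine (Small.image s (small_levels n)).union ?_
  unfold Small
  refine mk_range_le.trans_lt ?_
  rw [mk_Z]
  exact_mod_cast nat_lt_omega 1

theorem exists_part (x : X) : ∃ n, x ∈ part n := by
  rcases x with a | z
  · exact ⟨a.1 + 1, Or.inl ⟨a, Nat.lt_succ_self _, rfl⟩⟩
  · exact ⟨0, Or.inr ⟨z, rfl⟩⟩

open Classical in
/-- a point of `Y` whose assigned set contains `x` -/
noncomputable def c (m : Move X) (x : X) : X :=
  if h : ∃ y ∈ m.Y, x ∈ m.V y then h.choose else x

theorem c_spec {m : Move X} {x : X} (h : ∃ y ∈ m.Y, x ∈ m.V y) : c m x ∈ m.Y ∧ x ∈ m.V (c m x) := by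
  unfold c
  rw [dif_pos h]
  exact h.choose_spec

/-- the strategy -/
noncomputable def strat (h : List (Move X × Set X)) (m : Move X) : Set X :=
  c m '' {x | x ∈ part h.length ∧ ∃ y ∈ m.Y, x ∈ m.V y}

theorem strat_winning : BobWinning strat := by
  intro A D hD
  have hlen : ∀ n, (hist A D n).length = n := by intro n; simp [hist]
  have small : ∀ n, Small (D n) := by
    intro n
    rw [hD n]
    refine Small.image _ (Small.mono ?_ (small_part (hist A D n).length))
    exact fun x hx => hx.1
  refine ⟨fun n _ => ⟨?_, isClosed_small (small n), discrete_small (small n)⟩, fun hA x => ?_⟩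
  · rw [hD n]
    rintro _ ⟨x, hx, rfl⟩
    exact (c_spec hx.2).1
  · obtain ⟨n, hn⟩ := exists_part x
    by_cases hx : x ∈ W A D n
    · have h1 := (hA n).2.2 x hx
      refine ⟨n, c (A n) x, ?_, (c_spec h1).2⟩
      rw [hD n]
      refine ⟨x, ⟨?_, h1⟩, rfl⟩
      rw [hlen]; exact hn
    · unfold W at hx
      simp only [Set.mem_ofPred_eq, not_forall, not_not] at hx
      obtain ⟨k, -, y, hy, hxy⟩ := hx
      exact ⟨k, y, hy, hxy⟩

/-! ### The space is not totally paracompact -/

/-- the base -/
def base : Set (Set X) := {U | (∃ a, U = {s a}) ∨ ∃ z C, Small C ∧ U = nb z C}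

theorem isBasis : IsTopologicalBasis base := by
  refine isTopologicalBasis_of_isOpen_of_nhds ?_ ?_
  · rintro _ (⟨a, rfl⟩ | ⟨z, C, hC, rfl⟩)
    · exact isOpen_s a
    · exact isOpen_nb hC
  · rintro (a | z) U hx hU
    · exact ⟨{s a}, Or.inl ⟨a, rfl⟩, rfl, by rintro _ rfl; exact hx⟩
    · refine ⟨nb z {a | a ∈ A z ∧ s a ∉ U}, Or.inr ⟨z, _, hU z hx, rfl⟩, t_mem_nb.2 rfl, ?_⟩
      rintro (a | z') hy
      · have := s_mem_nb.1 hy
        by_contra h
        exact this.2 ⟨this.1, h⟩
      · obtain rfl := t_mem_nb.1 hy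
        exact hx

theorem small_bound {α : Type} {C : Set α} (h : Small C) :
    ∃ n : ℕ, #C ≤ aleph.{0} (n : Ordinal) := by
  rcases lt_or_ge #C ℵ₀ with h1 | h1
  · exact ⟨0, by simpa using h1.le⟩
  · obtain ⟨o, ho⟩ := mem_range_aleph_iff.2 h1
    have : o < ω := by
      rw [← aleph_lt_aleph, ho]; exact h
    obtain ⟨n, rfl⟩ := Ordinal.lt_omega0.1 this
    exact ⟨n, ho.ge⟩

theorem not_tp : ¬ TotallyParacompact X := by
  intro h
  obtain ⟨G, hG, hcov, hfin⟩ := h base isBasis
  have key : ∀ z : Z, ∃ C : Set S, nb z C ∈ G ∧ ∃ n : ℕ, #C ≤ aleph.{0} (n : Ordinal) := by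
    intro z
    have : t z ∈ ⋃₀ G := by rw [hcov]; trivial
    obtain ⟨U, hU, hz⟩ := this
    rcases hG hU with ⟨a, rfl⟩ | ⟨z', C, hC, rfl⟩
    · exact (Sum.inr_ne_inl (mem_singleton_iff.1 hz)).elim
    · obtain rfl := t_mem_nb.1 hz
      exact ⟨C, hU, small_bound hC⟩
  choose C hC m hm using key
  have hunc : Uncountable Z := by
    rw [← aleph0_lt_mk_iff, mk_Z]
    exact aleph0_lt_aleph_one
  obtain ⟨⟨k, j⟩, hinf⟩ : ∃ p : ℕ × ℕ, Infinite ((fun z : Z => (m z, f z (m z + 1))) ⁻¹' {p}) := by
    by_contra hno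
    push Not at hno
    have : (univ : Set Z).Countable := by
      have e : (univ : Set Z) =
          ⋃ p : ℕ × ℕ, (fun z : Z => (m z, f z (m z + 1))) ⁻¹' {p} := by
        ext z; simp
      rw [e]
      refine countable_iUnion fun p => ?_
      have := hno p
      exact (Set.toFinite _).countable
    exact not_countable (countable_univ_iff.1 this)
  obtain ⟨e⟩ : Nonempty (ℕ ↪ ((fun z : Z => (m z, f z (m z + 1))) ⁻¹' {(k, j)})) :=
    ⟨Infinite.natEmbedding _⟩
  have hk : ∀ i, m (e i : Z) = k ∧ f (e i : Z) (k + 1) = j := by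
    intro i
    have := (e i).2
    simp only [mem_preimage, mem_singleton_iff, Prod.mk.injEq] at this
    obtain ⟨h1, h2⟩ := this
    rw [h1] at h2
    exact ⟨h1, h2⟩
  obtain ⟨ξ, hξ⟩ : ∃ ξ : M (k + 1), ∀ i, (⟨k + 1, (j, ξ)⟩ : S) ∉ C (e i) := by
    by_contra hno
    push Not at hno
    choose i hi using hno
    have hle : #(M (k + 1)) ≤ #(⋃ i, C (e i) : Set S) := by
      refine mk_le_of_injective (f := fun ξ => (⟨⟨k + 1, (j, ξ)⟩, mem_iUnion.2 ⟨i ξ, hi ξ⟩⟩ :
        (⋃ i, C (e i) : Set S))) ?_
      intro a b hab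
      simpa using hab
    have hle2 : #(⋃ i, C (e i) : Set S) ≤ aleph.{0} (k : Ordinal) := by
      refine (mk_iUnion_le _).trans ?_
      have hs : (⨆ i, #(C (e i))) ≤ aleph.{0} (k : Ordinal) := by
        refine ciSup_le' fun i => ?_
        have := hm (e i : Z)
        rwa [(hk i).1] at this
      calc #ℕ * (⨆ i, #(C (e i))) ≤ ℵ₀ * aleph.{0} (k : Ordinal) := by
            rw [mk_nat]; exact mul_le_mul' le_rfl hs
        _ = _ := aleph0_mul_aleph _
    have := hle.trans hle2
    rw [mk_M, aleph_le_aleph] at this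
    have h2 : ((k + 1 : ℕ) : Ordinal.{0}) ≤ (k : ℕ) := this
    rw [Nat.cast_le] at h2
    omega
  have hpf := hfin.point_finite (s ⟨k + 1, (j, ξ)⟩)
  have hinj : Function.Injective (fun i : ℕ => (⟨nb (e i) (C (e i)), hC _⟩ : G)) := by
    intro a b hab
    have h1 : nb (e a) (C (e a)) = nb (e b) (C (e b)) := congrArg Subtype.val hab
    have h2 : t (e a : Z) ∈ nb (e b) (C (e b)) := by
      rw [← h1]; exact t_mem_nb.2 rfl
    exact e.injective (Subtype.ext (t_mem_nb.1 h2))
  have hsub : range (fun i : ℕ => (⟨nb (e i) (C (e i)), hC _⟩ : G)) ⊆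
      {g : G | s ⟨k + 1, (j, ξ)⟩ ∈ (g : Set X)} := by
    rintro _ ⟨i, rfl⟩
    exact s_mem_nb.2 ⟨(hk i).2.symm, hξ i⟩
  exact (infinite_range_of_injective hinj) (hpf.subset hsub)

/-- There is an infinite regular Hausdorff space in which Bob has a winning strategy although the
space is not totally paracompact. -/
theorem result : ∃ (X : Type) (_ : TopologicalSpace X), Infinite X ∧ T2Space X ∧ RegularSpace X ∧
    (∃ σ : List (Move X × Set X) → Move X → Set X, BobWinning σ) ∧ ¬ TotallyParacompact X := by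
  refine ⟨X, inferInstance, inferInstance, ?_, inferInstance, ⟨strat, strat_winning⟩, not_tp⟩
  have : T3Space X := {}
  infer_instance

end Pool.Agent.Results.MP_74305c_gt.BobWins
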